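import Pool.Agent.Helper96.Clu.Basis

/-!
# MP_b29d84_al, Q1: a cluster algebra of geometric type without a compatible additive basis

We disprove Q1.  The counterexample has three mutable and three coefficient variables, with
cluster `x, p, q`, coefficient variables `c, d, e` and exchange relations
`x y = d^3 q^3 + e^3 p^3`, `p u = x^3 + c^2 d q`, `q v = x^3 + c^2 e p`, `q w = u + c^2 e`,
`x r = u^3 + c^6 e^3`, `x s = v^3 + c^6 d^3`.  The proof uses the identity
`c^4 w y = d p^2 r + e q^2 s - d x^5 u - 2 c^2 d^2 x^2 q u - e x^5 v - 2 c^2 e^2 x^2 p v`,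
a `ℤ^4`-grading of the cluster algebra in which all cluster variables other than
`x, p, q, u, v, w, y` have first degree at least 4, and evaluation at `c = 0`, `d = 0`, `e = 0`.
-/

namespace Pool.Agent.Results.MP_b29d84_al.NoCompatibleBasis

open Pool.Agent.Helper96.Clu

/-- The answer to Q1 is negative.  More precisely, the top block of the `6 × 3` matrix `exB` is
skew-symmetric, and no additive basis of its cluster algebra has properties 1 and 3. -/
theorem result :
    ¬ Q1 ∧ (∀ i j : Fin 3, exB (Sum.inl i) j = - exB (Sum.inl j) i) ∧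
      ¬ ∃ S : Set (Amb 3 3), IsAdditiveBasis exB S ∧ Prop1 exB S ∧ Prop3 S := by
  have h1 : ∀ i j : Fin 3, exB (Sum.inl i) j = - exB (Sum.inl j) i := by decide
  have h2 : ¬ ∃ S : Set (Amb 3 3), IsAdditiveBasis exB S ∧ Prop1 exB S ∧ Prop3 S := by
    rintro ⟨S, hS, p1, p3⟩
    exact no_basis hS p1 p3
  refine ⟨fun h => ?_, h1, h2⟩
  obtain ⟨S, hS, p1, -, p3, -⟩ := h 3 3 exB ⟨fun _ => 1, fun _ => one_pos, fun i j => by
    rw [one_mul, one_mul]; exact h1 i j⟩
  exact h2 ⟨S, hS, p1, p3⟩

end Pool.Agent.Results.MP_b29d84_al.NoCompatibleBasis
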